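import Pool.Agent.VMX.StmtsA

/-! VMX squad, row SLD (helper80): decomposition along a vertex of the slice. -/

set_option autoImplicit false

open Matrix Filter Topology

namespace Pool.Agent.VMX.H80

open Pool.Agent.PFS Pool.Agent.PFJ Pool.Agent.NBT Pool.Agent.VMX

theorem dec {n : ℕ} {C : Set (V n)} (h : PCone C) {E : Submodule ℝ (V n)} {y : V n}
    (hyE : y ∈ E) (hyc : y ∈ closure C) (hy0 : y ≠ 0) {u : V n} (huE : u ∈ E)
    (huc : u ∈ closure C) : ∃ (s : ℝ) (u1 : V n), 0 ≤ s ∧ u = s • y + u1 ∧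
        (u1 = 0 ∨ (PCO.Bd C E u1 ∧ ∀ a : ℝ, u1 ≠ a • y)) := by
  obtain ⟨B, hB0, hB⟩ := h.normal
  set S : Set ℝ := {t | 0 ≤ t ∧ u - t • y ∈ closure C} with hS
  have hcl : IsClosed S := by
    have h1 : IsClosed {t : ℝ | 0 ≤ t} := isClosed_Ici
    have h2 : IsClosed {t : ℝ | u - t • y ∈ closure C} :=
      isClosed_closure.preimage (by fun_prop : Continuous (fun t : ℝ => u - t • y))
    exact h1.inter h2
  have hny : 0 < ‖y‖ := norm_pos_iff.mpr hy0
  have hbd : S ⊆ Set.Icc 0 (B * ‖u‖ / ‖y‖) := by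
    rintro t ⟨ht0, ht⟩
    refine ⟨ht0, ?_⟩
    have h3 := hB (t • y) u (h.cl_smul hyc ht0) ht
    rw [norm_smul, Real.norm_eq_abs, abs_of_nonneg ht0] at h3
    rwa [le_div_iff₀ hny]
  have hcpt : IsCompact S := isCompact_Icc.of_isClosed_subset hcl hbd
  have hne : S.Nonempty := ⟨0, le_rfl, by simpa using huc⟩
  obtain ⟨s, hs⟩ := hcpt.exists_isGreatest hne
  have hsS : 0 ≤ s ∧ u - s • y ∈ closure C := hs.1
  refine ⟨s, u - s • y, hsS.1, by abel, ?_⟩
  by_cases h0 : u - s • y = 0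
  · exact Or.inl h0
  refine Or.inr ⟨⟨E.sub_mem huE (E.smul_mem s hyE), hsS.2, h0, ?_⟩, ?_⟩
  · rintro ⟨_, _, h4⟩
    obtain ⟨M, hM, h5⟩ := h4 y hyE
    have h6 : u - (s + M⁻¹) • y ∈ closure C := by
      have h7 := h.cl_smul h5 (t := M⁻¹) (inv_pos.mpr hM).le
      have h8 : M⁻¹ • (M • (u - s • y) - y) = u - (s + M⁻¹) • y := by
        rw [smul_sub, smul_smul, inv_mul_cancel₀ hM.ne', one_smul, add_smul]; abel
      rwa [h8] at h7
    have h9 : s + M⁻¹ ≤ s := hs.2 ⟨add_nonneg hsS.1 (inv_pos.mpr hM).le, h6⟩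
    have := inv_pos.mpr hM
    linarith
  · intro a ha
    have hapos : 0 < a := by
      by_contra hna
      have hna' : 0 ≤ -a := by linarith [not_lt.mp hna]
      have h7 : -(u - s • y) ∈ closure C := by
        rw [ha, ← neg_smul]
        exact h.cl_smul hyc hna'
      exact h0 (h.salient _ hsS.2 h7)
    have h6 : u - (s + a) • y = 0 := by
      rw [add_smul, ← ha]; abel
    have h9 : s + a ≤ s := hs.2 ⟨add_nonneg hsS.1 hapos.le, by rw [h6]; exact h.zero_cl⟩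
    linarith

/-- **Row SLD** -/
theorem sld (h1 : SlbStmt) : SldStmt := by
  intro n C Γ hC K hK hmax z hz p j hpj E hE
  obtain ⟨-, -, -, hbp, hbj, hunt⟩ := h1 n C Γ hC K hK hmax z hz p j hpj E hE
  have hP : PCone C := hC.toPCone
  obtain ⟨hjE, hjc, hj0, -⟩ := hbj
  have key : ∀ u ∈ E, u ∈ closure C → ∃ (s : ℝ) (u1 : V n), 0 ≤ s ∧ u = s • z j + u1 ∧
        (u1 = 0 ∨ (PCO.Bd C E u1 ∧ ∀ a : ℝ, u1 ≠ a • z j)) := by
    intro u huE huc
    exact dec hP hjE hjc hj0 huE huc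
  refine ⟨key, ?_⟩
  have hin : ∀ u ∈ E, u ∈ closure C →
      u ∈ Submodule.span ℝ ({z j} ∪ {h | PCO.Bd C E h ∧ ∀ a : ℝ, h ≠ a • z j}) := by
    intro u huE huc
    obtain ⟨s, u1, hs, hu, hu1⟩ := key u huE huc
    rw [hu]
    refine Submodule.add_mem _ (Submodule.smul_mem _ s (Submodule.subset_span (Or.inl rfl))) ?_
    rcases hu1 with h0 | h0
    · rw [h0]; exact Submodule.zero_mem _
    · exact Submodule.subset_span (Or.inr h0)
  apply le_antisymm
  · intro v hv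
    obtain ⟨hwE, hwc, hw⟩ := hunt
    obtain ⟨M, hM, h5⟩ := hw v hv
    have h6 := hin _ (E.smul_mem M hwE) (hP.cl_smul hwc hM.le)
    have h7 := hin _ (E.sub_mem (E.smul_mem M hwE) hv) h5
    have h8 := Submodule.sub_mem _ h6 h7
    have h9 : M • (z p + z j) - (M • (z p + z j) - v) = v := by abel
    rwa [h9] at h8
  · rw [Submodule.span_le]
    rintro x (hx | hx)
    · rw [Set.mem_singleton_iff.mp hx]; exact hjE
    · exact hx.1.1

end Pool.Agent.VMX.H80
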